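import Pool.Agent.H42.XS.Targets
import Pool.Agent.H99.SYM.Val

/-!
Circuits symmetric under exchanges of literals (MP_c62aed_lc), row UP: the circuit that tries all
exchanges.
-/

namespace Pool.Agent.H3.XS

open Finset Pool.Agent.H60.SYM Pool.Agent.H42.XS

/-! ### The number of clauses -/

theorem card_cl (n k : ℕ) : Fintype.card (Cl n k) ≤ (2 * n + 1) ^ k := by
  classical
  have h1 : Function.Injective (fun (D : Cl n k) (i : Fin k) => D.1.toList[(i : ℕ)]?) := by
    intro D D' h
    have h2 : D.1.toList = D'.1.toList := by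
      apply List.ext_getElem?
      intro i
      by_cases hi : i < k
      · exact congrFun h ⟨i, hi⟩
      · rw [List.getElem?_eq_none (by rw [Finset.length_toList]; have := D.2; omega),
          List.getElem?_eq_none (by rw [Finset.length_toList]; have := D'.2; omega)]
    apply Subtype.ext
    have h3 := congrArg List.toFinset h2
    rwa [Finset.toList_toFinset, Finset.toList_toFinset] at h3
  refine (Fintype.card_le_of_injective _ h1).trans (le_of_eq ?_)
  rw [Fintype.card_fun, Fintype.card_fin, Fintype.card_option, Fintype.card_prod,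
    Fintype.card_fin, Fintype.card_bool, mul_comm n 2]

/-! ### The circuit -/

section

variable {n k : ℕ} (U : Submodule (ZMod 2) (Fin n → ZMod 2))

noncomputable instance : Fintype U := Fintype.ofFinite U

/-- the gates -/
abbrev Gt (k : ℕ) (U : Submodule (ZMod 2) (Fin n → ZMod 2)) : Type := (Cl n k ⊕ U) ⊕ Fin 1

/-- the number of the gates -/
noncomputable abbrev ns (k : ℕ) (U : Submodule (ZMod 2) (Fin n → ZMod 2)) : ℕ :=
  Fintype.card (Cl n k) + Fintype.card U + 1

/-- the numbers of the gates -/
noncomputable def enc (k : ℕ) (U : Submodule (ZMod 2) (Fin n → ZMod 2)) :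
    Gt k U ≃ Fin (ns k U) :=
  (Equiv.sumCongr ((Equiv.sumCongr (Fintype.equivFin (Cl n k)) (Fintype.equivFin U)).trans
    finSumFinEquiv) (Equiv.refl (Fin 1))).trans finSumFinEquiv

theorem enc_cl (D : Cl n k) : (enc k U (Sum.inl (Sum.inl D))).val = (Fintype.equivFin (Cl n k) D).val := by
  simp [enc]

theorem enc_u (u : U) : (enc k U (Sum.inl (Sum.inr u))).val =
    Fintype.card (Cl n k) + (Fintype.equivFin U u).val := by
  simp [enc]

theorem enc_o (i : Fin 1) : (enc k U (Sum.inr i)).val =
    Fintype.card (Cl n k) + Fintype.card U := by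
  have hi : i = 0 := Subsingleton.elim _ _
  subst hi
  simp [enc]

/-- the clause of an input gate -/
def ginp : Gt k U → Option (Cl n k)
  | Sum.inl (Sum.inl D) => some D
  | Sum.inl (Sum.inr _) => none
  | Sum.inr _ => none

/-- the labels -/
noncomputable def glab : Gt k U → Gt k U → ℕ
  | Sum.inl (Sum.inl _), _ => 0
  | Sum.inl (Sum.inr u), Sum.inl (Sum.inl D) =>
      (Fintype.equivFin (Cl n k) (exch (u : Fin n → ZMod 2) D)).val + 1
  | Sum.inl (Sum.inr _), Sum.inl (Sum.inr _) => 0
  | Sum.inl (Sum.inr _), Sum.inr _ => 0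
  | Sum.inr _, Sum.inl (Sum.inl _) => 0
  | Sum.inr _, Sum.inl (Sum.inr _) => 1
  | Sum.inr _, Sum.inr _ => 0

open Classical in
/-- the functions -/
noncomputable def gfn : Gt k U → (ℕ → ℕ) → Bool
  | Sum.inl (Sum.inl _) => fun _ => false
  | Sum.inl (Sum.inr _) => fun cnt => decide (Satisfiable (fun D : Cl n k =>
      decide (cnt (Fintype.equivFin (Cl n k) D).val ≠ 0)))
  | Sum.inr _ => fun cnt => decide (cnt 0 ≠ 0)

/-- the circuit -/
noncomputable def cir (k : ℕ) (U : Submodule (ZMod 2) (Fin n → ZMod 2)) :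
    Circuit (Cl n k) (ns k U) where
  inp g := ginp U ((enc k U).symm g)
  lab g h := glab U ((enc k U).symm g) ((enc k U).symm h)
  acyclic g h := by
    obtain ⟨x, rfl⟩ := (enc k U).surjective g
    obtain ⟨y, rfl⟩ := (enc k U).surjective h
    rw [Equiv.symm_apply_apply, Equiv.symm_apply_apply]
    intro hl
    rw [Fin.lt_def]
    rcases x with (D | u) | i <;> rcases y with (D' | u') | i'
    · exact absurd rfl hl
    · exact absurd rfl hl
    · exact absurd rfl hl
    · rw [enc_cl, enc_u]
      have := (Fintype.equivFin (Cl n k) D').isLt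
      omega
    · exact absurd rfl hl
    · exact absurd rfl hl
    · exact absurd rfl hl
    · rw [enc_u, enc_o]
      have := (Fintype.equivFin U u').isLt
      omega
    · exact absurd rfl hl
  fn g := gfn U ((enc k U).symm g)
  out := enc k U (Sum.inr 0)

theorem cir_inp (x : Gt k U) : (cir k U).inp (enc k U x) = ginp U x := by
  change ginp U ((enc k U).symm (enc k U x)) = _
  rw [Equiv.symm_apply_apply]

theorem cir_lab (x y : Gt k U) : (cir k U).lab (enc k U x) (enc k U y) = glab U x y := by
  change glab U ((enc k U).symm (enc k U x)) ((enc k U).symm (enc k U y)) = _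
  rw [Equiv.symm_apply_apply, Equiv.symm_apply_apply]

theorem cir_fn (x : Gt k U) : (cir k U).fn (enc k U x) = gfn U x := by
  change gfn U ((enc k U).symm (enc k U x)) = _
  rw [Equiv.symm_apply_apply]

theorem z2_add {n : ℕ} (f : Fin n → ZMod 2) : f + f = 0 := by
  funext v
  exact CharTwo.add_self_eq_zero (f v)

variable (hEX : T_EX)
include hEX

theorem exch_exch (f : Fin n → ZMod 2) (D : Cl n k) : exch f (exch f D) = D := by
  rw [← (hEX n k).1, z2_add, (hEX n k).2.1]

theorem val_cl (φ : Cl n k → Bool) (D : Cl n k) :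
    (cir k U).val φ (enc k U (Sum.inl (Sum.inl D))) = φ D :=
  (Pool.Agent.H99.SYM.val _ _ (cir k U) φ _).1 D (cir_inp U _)

theorem val_u (φ : Cl n k → Bool) (u : U) :
    (cir k U).val φ (enc k U (Sum.inl (Sum.inr u))) = true ↔ Satisfiable φ := by
  classical
  rw [(Pool.Agent.H99.SYM.val _ _ (cir k U) φ _).2 (cir_inp U _), cir_fn]
  have h1 : ∀ D : Cl n k, decide ((univ.filter fun h : Fin (ns k U) =>
      (cir k U).lab (enc k U (Sum.inl (Sum.inr u))) h = (Fintype.equivFin (Cl n k) D).val + 1 ∧
        (cir k U).val φ h = true).card ≠ 0) = φ (exch (u : Fin n → ZMod 2) D) := by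
    intro D
    rw [Bool.eq_iff_iff, decide_eq_true_iff, Finset.card_ne_zero]
    constructor
    · rintro ⟨h, hh⟩
      obtain ⟨y, rfl⟩ := (enc k U).surjective h
      simp only [mem_filter, mem_univ, true_and] at hh
      rw [cir_lab] at hh
      rcases y with (D' | u') | i
      · obtain ⟨h2, h3⟩ := hh
        rw [val_cl U hEX] at h3
        have h4 : exch (u : Fin n → ZMod 2) D' = D := by
          apply (Fintype.equivFin (Cl n k)).injective
          apply Fin.ext
          have h5 : (Fintype.equivFin (Cl n k) (exch (u : Fin n → ZMod 2) D')).val + 1 =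
            (Fintype.equivFin (Cl n k) D).val + 1 := h2
          omega
        rw [← h4, exch_exch hEX]
        exact h3
      · exact absurd hh.1 (by change ¬ (0 = _); omega)
      · exact absurd hh.1 (by change ¬ (0 = _); omega)
    · intro h
      refine ⟨enc k U (Sum.inl (Sum.inl (exch (u : Fin n → ZMod 2) D))), ?_⟩
      simp only [mem_filter, mem_univ, true_and]
      rw [cir_lab, val_cl U hEX]
      refine ⟨?_, h⟩
      change (Fintype.equivFin (Cl n k) (exch (u : Fin n → ZMod 2)
        (exch (u : Fin n → ZMod 2) D))).val + 1 = _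
      rw [exch_exch hEX]
  change decide (Satisfiable (fun D : Cl n k => decide (_ ≠ 0))) = true ↔ _
  rw [decide_eq_true_iff]
  simp only [h1]
  exact (hEX n k).2.2 u φ

theorem val_out (φ : Cl n k → Bool) : (cir k U).val φ (cir k U).out = true ↔ Satisfiable φ := by
  classical
  change (cir k U).val φ (enc k U (Sum.inr 0)) = true ↔ _
  rw [(Pool.Agent.H99.SYM.val _ _ (cir k U) φ _).2 (cir_inp U _), cir_fn]
  change decide (_ ≠ 0) = true ↔ _
  rw [decide_eq_true_iff, Finset.card_ne_zero]
  constructor
  · rintro ⟨h, hh⟩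
    obtain ⟨y, rfl⟩ := (enc k U).surjective h
    simp only [mem_filter, mem_univ, true_and] at hh
    rw [cir_lab] at hh
    rcases y with (D' | u') | i
    · exact absurd hh.1 (by change ¬ (0 = _); omega)
    · exact (val_u U hEX φ u').1 hh.2
    · exact absurd hh.1 (by change ¬ (0 = _); omega)
  · intro h
    refine ⟨enc k U (Sum.inl (Sum.inr 0)), ?_⟩
    simp only [mem_filter, mem_univ, true_and]
    rw [cir_lab]
    exact ⟨rfl, (val_u U hEX φ 0).2 h⟩

/-- the exchanges as permutations of the gates -/
def gperm (f : U) : Equiv.Perm (Gt k U) :=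
  Equiv.sumCongr (Equiv.sumCongr
    ⟨exch (f : Fin n → ZMod 2), exch (f : Fin n → ZMod 2), exch_exch hEX _, exch_exch hEX _⟩
    (Equiv.addRight f)) (Equiv.refl (Fin 1))

theorem sym_cir : Sym U (cir k U) := by
  intro f hf
  refine ⟨((enc k U).symm.trans (gperm U hEX ⟨f, hf⟩)).trans (enc k U), ?_, ?_, ?_, ?_⟩
  · change enc k U (gperm U hEX ⟨f, hf⟩ ((enc k U).symm (enc k U (Sum.inr 0)))) = _
    rw [Equiv.symm_apply_apply]
    rfl
  · intro g
    obtain ⟨x, rfl⟩ := (enc k U).surjective g
    change (cir k U).inp (enc k U (gperm U hEX ⟨f, hf⟩ ((enc k U).symm (enc k U x)))) = _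
    rw [Equiv.symm_apply_apply, cir_inp, cir_inp]
    rcases x with (D | u) | i <;> rfl
  · intro g
    obtain ⟨x, rfl⟩ := (enc k U).surjective g
    change (cir k U).fn (enc k U (gperm U hEX ⟨f, hf⟩ ((enc k U).symm (enc k U x)))) = _
    rw [Equiv.symm_apply_apply, cir_fn, cir_fn]
    rcases x with (D | u) | i <;> rfl
  · intro g h
    obtain ⟨x, rfl⟩ := (enc k U).surjective g
    obtain ⟨y, rfl⟩ := (enc k U).surjective h
    change (cir k U).lab (enc k U (gperm U hEX ⟨f, hf⟩ ((enc k U).symm (enc k U x))))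
      (enc k U (gperm U hEX ⟨f, hf⟩ ((enc k U).symm (enc k U y)))) = _
    rw [Equiv.symm_apply_apply, Equiv.symm_apply_apply, cir_lab, cir_lab]
    rcases x with (D | u) | i <;> rcases y with (D' | u') | i'
    · rfl
    · rfl
    · rfl
    · change (Fintype.equivFin (Cl n k) (exch ((u : Fin n → ZMod 2) + f) (exch f D'))).val + 1 =
        (Fintype.equivFin (Cl n k) (exch (u : Fin n → ZMod 2) D')).val + 1
      rw [(hEX n k).1, exch_exch hEX]
    · rfl
    · rfl
    · rfl
    · rfl
    · rfl

end

/-- **Row UP.** -/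
theorem pf_UP (hEX : T_EX) : T_UP := by
  intro n k U
  refine ⟨ns k U, cir k U, sym_cir U hEX, val_out U hEX, ?_⟩
  have h1 := card_cl n k
  have h2 : Fintype.card U = 2 ^ Module.finrank (ZMod 2) U := by
    have h3 := Module.card_eq_pow_finrank (K := ZMod 2) (V := U)
    rw [ZMod.card] at h3
    exact h3
  rw [ns, h2]
  omega

end Pool.Agent.H3.XS
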